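import Mathlib

/-!
# A Shakhmatov-type space

We build a subspace `X` of the Cantor cube `2^c` (index set `Crd` of size continuum) such that
* (P1) `X` projects onto every countable subcube (so `X` is `G_δ`-dense in the cube);
* (P2) every `{0,1}`-valued function on a countable subset of `X` is the restriction of a coordinate
  projection.
Then `C_p(X)` has countable point-finite cellularity, the Hewitt realcompactification of `X` is the
Stone-Cech compactification (which maps onto the whole cube), and `C_p` of it has an uncountable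
point-finite family of nonempty open sets.
-/

set_option autoImplicit false

namespace Pool.Agent.Helper94_CpHewitt

open Set Topology

/-- Index set of the points of the space. -/
abbrev Jdx : Type := ℕ → Bool

/-- Index set of the coordinates of the cube. -/
abbrev Crd : Type := ((ℕ → Jdx) × (ℕ → Bool)) × (ℕ → Bool)

theorem exists_enum : ∃ e : Jdx → (ℕ → Crd) × (ℕ → Bool), Function.Surjective e := by
  have h : Cardinal.mk Jdx = Cardinal.mk ((ℕ → Crd) × (ℕ → Bool)) := by
    simp [Jdx, Crd, Cardinal.mk_pi]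
  obtain ⟨e⟩ := Cardinal.eq.1 h
  exact ⟨e, e.surjective⟩

noncomputable def enum : Jdx → (ℕ → Crd) × (ℕ → Bool) := exists_enum.choose

theorem enum_surj : Function.Surjective enum := exists_enum.choose_spec

theorem exists_gam (t : (ℕ → Jdx) × (ℕ → Bool)) :
    ∃ s : ℕ → Bool, ∀ n m, (enum (t.1 n)).1 m ≠ (t, s) := by
  by_contra hcon
  push Not at hcon
  have hsub : (Set.univ : Set (ℕ → Bool)) ⊆
      ⋃ n, ⋃ m, {((enum (t.1 n)).1 m).2} := by
    intro s _
    obtain ⟨n, m, h⟩ := hcon s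
    simp only [Set.mem_iUnion, Set.mem_singleton_iff]
    exact ⟨n, m, by rw [h]⟩
  have hc : (Set.univ : Set (ℕ → Bool)).Countable := by
    refine Set.Countable.mono hsub ?_
    exact Set.countable_iUnion fun n => Set.countable_iUnion fun m => Set.countable_singleton _
  have hc' : Countable (ℕ → Bool) := Set.countable_univ_iff.1 hc
  have h1 := Cardinal.mk_le_aleph0_iff.2 hc'
  have h2 : Cardinal.mk (ℕ → Bool) = Cardinal.continuum := by
    clear h1 hc' hc hsub hcon
    simp
  rw [h2] at h1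
  exact absurd h1 (not_le.2 Cardinal.aleph0_lt_continuum)

noncomputable def gam (t : (ℕ → Jdx) × (ℕ → Bool)) : ℕ → Bool := (exists_gam t).choose

theorem gam_spec (t : (ℕ → Jdx) × (ℕ → Bool)) (n m : ℕ) :
    (enum (t.1 n)).1 m ≠ (t, gam t) := (exists_gam t).choose_spec n m

open Classical in
/-- The points of the space. -/
noncomputable def pt (j : Jdx) (k : Crd) : Bool :=
  if h : ∃ n, (enum j).1 n = k then (enum j).2 (Nat.find h)
  else if h : k.2 = gam k.1 ∧ ∃ n, k.1.1 n = j then k.1.2 (Nat.find h.2) else false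

theorem pt_P1 (a : ℕ → Crd) (g : Crd → Bool) : ∃ j, ∀ n, pt j (a n) = g (a n) := by
  classical
  obtain ⟨j, hj⟩ := enum_surj (a, fun n => g (a n))
  refine ⟨j, fun n => ?_⟩
  have h : ∃ m, (enum j).1 m = a n := ⟨n, by rw [hj]⟩
  unfold pt
  rw [dif_pos h]
  have h2 := Nat.find_spec h
  have h3 : (enum j).1 = a := by rw [hj]
  have h4 : (enum j).2 = fun n => g (a n) := by rw [hj]
  have h5 : a (Nat.find h) = a n := (congrFun h3 _).symm.trans h2
  exact (congrFun h4 _).trans (congrArg g h5)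

theorem pt_P2 (c : ℕ → Jdx) (u : Jdx → Bool) : ∃ k, ∀ n, pt (c n) k = u (c n) := by
  classical
  refine ⟨((c, fun n => u (c n)), gam (c, fun n => u (c n))), fun n => ?_⟩
  unfold pt
  rw [dif_neg]
  · have h : ∃ m, c m = c n := ⟨n, rfl⟩
    rw [dif_pos ⟨rfl, h⟩]
    have h2 := Nat.find_spec h
    convert congrArg u h2
  · rintro ⟨m, hm⟩
    exact gam_spec (c, fun n => u (c n)) n m hm

/-- The space. -/
abbrev X : Type := {y : Crd → Bool // y ∈ Set.range pt}

theorem X_nonempty : Nonempty X := ⟨⟨pt (fun _ => false), ⟨_, rfl⟩⟩⟩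

/-- (P1) -/
theorem P1 (A : Set Crd) (hA : A.Countable) (g : Crd → Bool) : ∃ p : X, ∀ k ∈ A, p.1 k = g k := by
  rcases A.eq_empty_or_nonempty with rfl | hne
  · obtain ⟨p⟩ := X_nonempty
    exact ⟨p, by simp⟩
  · obtain ⟨a, rfl⟩ := hA.exists_eq_range hne
    obtain ⟨j, hj⟩ := pt_P1 a g
    refine ⟨⟨pt j, ⟨j, rfl⟩⟩, ?_⟩
    rintro k ⟨n, rfl⟩
    exact hj n

/-- (P2) -/
theorem P2 (C : Set X) (hC : C.Countable) (u : X → Bool) : ∃ k : Crd, ∀ p ∈ C, p.1 k = u p := by
  rcases C.eq_empty_or_nonempty with rfl | hne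
  · exact ⟨default, by simp⟩
  · obtain ⟨a, rfl⟩ := hC.exists_eq_range hne
    have hidx : ∀ p : X, ∃ j, pt j = p.1 := fun p => p.2
    choose idx hidx using hidx
    obtain ⟨k, hk⟩ := pt_P2 (fun n => idx (a n)) (fun j => u ⟨pt j, ⟨j, rfl⟩⟩)
    refine ⟨k, ?_⟩
    rintro p ⟨n, rfl⟩
    have h := hk n
    have h2 : (⟨pt (idx (a n)), ⟨idx (a n), rfl⟩⟩ : X) = a n := Subtype.ext (hidx (a n))
    calc (a n).1 k = pt (idx (a n)) k := by rw [hidx]
      _ = u ⟨pt (idx (a n)), ⟨idx (a n), rfl⟩⟩ := h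
      _ = u (a n) := by rw [h2]

/-! ### Countable dense sets of simple functions -/

/-- simple functions determined by finitely many binary digits of the index -/
def smp {K Q : Type} (ψ : K → ℕ → Bool) (p : Σ n : ℕ, ((Fin n → Bool) → Q)) : K → Q :=
  fun k => p.2 (fun i => ψ k i)

theorem smp_dense {K Q : Type} [Nonempty Q] (ψ : K → ℕ → Bool) (hψ : Function.Injective ψ)
    (v : K → Q) (F : Finset K) : ∃ p, ∀ k ∈ F, smp ψ p k = v k := by
  classical
  have h1 : ∀ q : K × K, ∃ i : ℕ, q.1 ≠ q.2 → ψ q.1 i ≠ ψ q.2 i := by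
    intro q
    by_cases h : q.1 = q.2
    · exact ⟨0, fun h' => absurd h h'⟩
    · have : ψ q.1 ≠ ψ q.2 := fun h' => h (hψ h')
      obtain ⟨i, hi⟩ := Function.ne_iff.1 this
      exact ⟨i, fun _ => hi⟩
  choose i hi using h1
  set N : ℕ := (F ×ˢ F).sup i + 1 with hN
  have hinj : ∀ k ∈ F, ∀ l ∈ F, (∀ j : Fin N, ψ k j = ψ l j) → k = l := by
    intro k hk l hl h
    by_contra hne
    have hlt : i (k, l) < N := by
      rw [hN]
      exact Nat.lt_succ_of_le (Finset.le_sup (f := i) (Finset.mk_mem_product hk hl))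
    exact hi (k, l) hne (h ⟨i (k, l), hlt⟩)
  obtain ⟨q0⟩ := ‹Nonempty Q›
  refine ⟨⟨N, fun t => if h : ∃ k, k ∈ F ∧ ∀ j : Fin N, ψ k j = t j then v h.choose else q0⟩, ?_⟩
  intro k hk
  unfold smp
  have h : ∃ l, l ∈ F ∧ ∀ j : Fin N, ψ l j = ψ k j := ⟨k, hk, fun _ => rfl⟩
  simp only
  rw [dif_pos h]
  rw [hinj h.choose h.choose_spec.1 k hk h.choose_spec.2]

theorem exists_code_Crd : ∃ ψ : Crd → ℕ → Bool, Function.Injective ψ := by
  have h : Cardinal.mk Crd = Cardinal.mk (ℕ → Bool) := by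
    simp [Jdx, Crd]
  obtain ⟨e⟩ := Cardinal.eq.1 h
  exact ⟨e, e.injective⟩

theorem exists_code_X : ∃ ψ : X → ℕ → Bool, Function.Injective ψ := by
  choose idx hidx using fun p : X => p.2
  refine ⟨idx, fun p q h => ?_⟩
  apply Subtype.ext
  rw [← hidx p, ← hidx q, h]

/-! ### Basic neighbourhoods -/

theorem nhd_basis (p : X) (V : Set X) (hV : IsOpen V) (hp : p ∈ V) :
    ∃ E : Finset Crd, ∀ z : X, (∀ k ∈ E, z.1 k = p.1 k) → z ∈ V := by
  obtain ⟨W, hW, rfl⟩ := isOpen_induced_iff.1 hV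
  obtain ⟨I, u, hu, hsub⟩ := isOpen_pi_iff.1 hW p.1 hp
  refine ⟨I, fun z hz => hsub ?_⟩
  intro k hk
  rw [hz k hk]
  exact (hu k hk).2

theorem eventually_agree (y : Crd → Bool) (E : Finset Crd) :
    ∀ᶠ y' in 𝓝 y, ∀ k ∈ E, y' k = y k := by
  rw [Finset.eventually_all]
  intro k _
  have h : Filter.Tendsto (fun y' : Crd → Bool => y' k) (𝓝 y) (𝓝 (y k)) :=
    (continuous_apply k).continuousAt
  have h2 : ∀ᶠ b in 𝓝 (y k), b = y k := by
    rw [nhds_discrete]
    simp
  exact h.eventually h2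

/-! ### Step A: point-finite families in `C_p(X)` are countable -/

theorem stepA (𝒰 : Set (Set {f : X → ℝ // Continuous f}))
    (hU : ∀ U ∈ 𝒰, IsOpen U ∧ U.Nonempty)
    (hpf : ∀ y : {f : X → ℝ // Continuous f}, {U | U ∈ 𝒰 ∧ y ∈ U}.Finite) : 𝒰.Countable := by
  classical
  obtain ⟨ψ, hψ⟩ := exists_code_X
  -- extension of a simple function from a countable set
  have hext : ∀ (p : Σ n : ℕ, ((Fin n → Bool) → ℚ)) (C : Set X), C.Countable →
      ∃ f : {f : X → ℝ // Continuous f}, ∀ x ∈ C, f.1 x = ((smp ψ p x : ℚ) : ℝ) := by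
    intro p C hC
    have h1 : ∀ i : Fin p.1, ∃ k : Crd, ∀ x ∈ C, x.1 k = ψ x i :=
      fun i => P2 C hC (fun x => ψ x i)
    choose k hk using h1
    refine ⟨⟨fun x => ((p.2 (fun i => x.1 (k i)) : ℚ) : ℝ), ?_⟩, ?_⟩
    · have h2 : Continuous (fun t : Fin p.1 → Bool => ((p.2 t : ℚ) : ℝ)) :=
        continuous_of_discreteTopology
      have h3 : Continuous (fun x : X => (fun i => x.1 (k i) : Fin p.1 → Bool)) :=
        continuous_pi fun i => (continuous_apply (k i)).comp continuous_subtype_val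
      exact h2.comp h3
    · intro x hx
      simp only [smp]
      have h4 : (fun i => x.1 (k i)) = fun i : Fin p.1 => ψ x i := by
        funext i
        exact hk i x hx
      rw [h4]
  -- goodness
  have hgood : ∀ U ∈ 𝒰, ∃ p : (Σ n : ℕ, ((Fin n → Bool) → ℚ)), ∃ F : Finset X,
      ∀ f : {f : X → ℝ // Continuous f}, (∀ x ∈ F, f.1 x = ((smp ψ p x : ℚ) : ℝ)) → f ∈ U := by
    intro U hUm
    obtain ⟨hop, f0, hf0⟩ := hU U hUm
    obtain ⟨W, hW, rfl⟩ := isOpen_induced_iff.1 hop
    obtain ⟨I, u, hu, hsub⟩ := isOpen_pi_iff.1 hW f0.1 hf0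
    have hq : ∀ x : X, ∃ q : ℚ, x ∈ I → (q : ℝ) ∈ u x := by
      intro x
      by_cases hx : x ∈ I
      · obtain ⟨ho, hm⟩ := hu x hx
        obtain ⟨q, hq⟩ := Rat.denseRange_cast (𝕜 := ℝ) |>.exists_mem_open ho ⟨_, hm⟩
        exact ⟨q, fun _ => hq⟩
      · exact ⟨0, fun h => absurd h hx⟩
    choose v hv using hq
    obtain ⟨p, hp⟩ := smp_dense ψ hψ v I
    refine ⟨p, I, fun f hf => hsub ?_⟩
    intro x hx
    rw [hf x hx, hp x hx]
    exact hv x hx
  choose! P hP using hgood
  -- fibers are finite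
  have hsub : 𝒰 ⊆ ⋃ p : (Σ n : ℕ, ((Fin n → Bool) → ℚ)), {U | U ∈ 𝒰 ∧ P U = p} := by
    intro U hUm
    simp only [Set.mem_iUnion]
    exact ⟨P U, hUm, rfl⟩
  refine Set.Countable.mono hsub (Set.countable_iUnion fun p => ?_)
  apply Set.Finite.countable
  by_contra hinf
  have hinf' : {U | U ∈ 𝒰 ∧ P U = p}.Infinite := hinf
  set s := hinf'.natEmbedding with hs
  have hFn : ∀ n : ℕ, ∃ F : Finset X,
      ∀ f : {f : X → ℝ // Continuous f}, (∀ x ∈ F, f.1 x = ((smp ψ p x : ℚ) : ℝ)) → f ∈ (s n).1 := by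
    intro n
    have := hP (s n).1 (s n).2.1
    rwa [(s n).2.2] at this
  choose F hF using hFn
  obtain ⟨f, hf⟩ := hext p (⋃ n, (F n : Set X))
    (Set.countable_iUnion fun n => (F n).countable_toSet)
  have hall : ∀ n, f ∈ (s n).1 := fun n =>
    hF n f fun x hx => hf x (Set.mem_iUnion.2 ⟨n, hx⟩)
  have hfin := hpf f
  have : (Set.range fun n => (s n).1).Infinite :=
    Set.infinite_range_of_injective (fun a b h => s.injective (Subtype.ext h))
  apply this
  refine hfin.subset ?_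
  rintro _ ⟨n, rfl⟩
  exact ⟨(s n).2.1, hall n⟩

/-! ### Step B: continuous functions on `X` extend to the cube -/

theorem stepB (g : X → ℝ) (hg : Continuous g) :
    ∃ G : (Crd → Bool) → ℝ, Continuous G ∧ (∀ p : X, G p.1 = g p) ∧ ∀ y, ∃ p, G y = g p := by
  classical
  obtain ⟨ψ, hψ⟩ := exists_code_Crd
  have hF : ∀ (q : ℚ) (p : Σ n : ℕ, ((Fin n → Bool) → Bool)), ∃ F : Finset Crd,
      (∃ F' : Finset Crd, ∀ z : X, (∀ k ∈ F', z.1 k = smp ψ p k) → g z < q) →
        ∀ z : X, (∀ k ∈ F, z.1 k = smp ψ p k) → g z < q := by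
    intro q p
    by_cases h : ∃ F' : Finset Crd, ∀ z : X, (∀ k ∈ F', z.1 k = smp ψ p k) → g z < q
    · obtain ⟨F', hF'⟩ := h
      exact ⟨F', fun _ => hF'⟩
    · exact ⟨∅, fun h' => absurd h' h⟩
  choose F hF using hF
  set A : Set Crd := ⋃ q : ℚ, ⋃ p : (Σ n : ℕ, ((Fin n → Bool) → Bool)), (F q p : Set Crd) with hA
  have hAc : A.Countable :=
    Set.countable_iUnion fun q => Set.countable_iUnion fun p => (F q p).countable_toSet
  have key : ∀ x y : X, (∀ k ∈ A, x.1 k = y.1 k) → ¬ g x < g y := by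
    intro x y hxy hlt
    obtain ⟨q, hq1, hq2⟩ := exists_rat_btwn hlt
    obtain ⟨E', hE'⟩ := nhd_basis x {z | g z < q} (isOpen_lt hg continuous_const) hq1
    obtain ⟨E, hE⟩ := nhd_basis y {z | (q : ℝ) < g z} (isOpen_lt continuous_const hg) hq2
    obtain ⟨p, hp⟩ := smp_dense ψ hψ x.1 (E' ∪ E)
    have hgood : ∀ z : X, (∀ k ∈ F q p, z.1 k = smp ψ p k) → g z < q := by
      apply hF q p
      refine ⟨E', fun z hz => hE' z fun k hk => ?_⟩
      rw [hz k hk, hp k (Finset.mem_union_left _ hk)]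
    obtain ⟨z, hz⟩ := P1 ((F q p : Set Crd) ∪ (E : Set Crd))
      ((F q p).countable_toSet.union E.countable_toSet)
      (fun k => if k ∈ A then smp ψ p k else y.1 k)
    have h1 : g z < q := by
      apply hgood
      intro k hk
      have hkA : k ∈ A := by
        rw [hA]
        exact Set.mem_iUnion.2 ⟨q, Set.mem_iUnion.2 ⟨p, hk⟩⟩
      rw [hz k (Or.inl hk), if_pos hkA]
    have h2 : (q : ℝ) < g z := by
      apply hE
      intro k hk
      rw [hz k (Or.inr hk)]
      by_cases hkA : k ∈ A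
      · rw [if_pos hkA, hp k (Finset.mem_union_right _ hk), hxy k hkA]
      · rw [if_neg hkA]
    exact lt_asymm h1 h2
  have keyeq : ∀ x y : X, (∀ k ∈ A, x.1 k = y.1 k) → g x = g y := by
    intro x y h
    apply le_antisymm
    · exact not_lt.1 (key y x fun k hk => (h k hk).symm)
    · exact not_lt.1 (key x y h)
  choose pick hpick using fun y : Crd → Bool => P1 A hAc y
  refine ⟨fun y => g (pick y), ?_, ?_, ?_⟩
  · rw [continuous_iff_continuousAt]
    intro y
    rw [ContinuousAt, Metric.tendsto_nhds]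
    intro ε hε
    obtain ⟨E, hE⟩ := nhd_basis (pick y) {z | dist (g z) (g (pick y)) < ε}
      (isOpen_lt (hg.dist continuous_const) continuous_const) (by simpa using hε)
    filter_upwards [eventually_agree y E] with y' hy'
    obtain ⟨z, hz⟩ := P1 (A ∪ (E : Set Crd)) (hAc.union E.countable_toSet)
      (fun k => if k ∈ A then y' k else (pick y).1 k)
    have h1 : g (pick y') = g z := by
      apply keyeq
      intro k hk
      rw [hpick y' k hk, hz k (Or.inl hk), if_pos hk]
    rw [h1]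
    apply hE
    intro k hk
    rw [hz k (Or.inr hk)]
    by_cases hkA : k ∈ A
    · rw [if_pos hkA, hpick y k hkA, hy' k hk]
    · rw [if_neg hkA]
  · intro p
    exact keyeq _ _ (hpick p.1)
  · intro y
    exact ⟨pick y, rfl⟩

/-! ### Step C: the Stone-Cech compactification -/

/-- The natural map of the Stone-Cech compactification onto the cube. -/
noncomputable def Phi : StoneCech X → (Crd → Bool) :=
  stoneCechExtend (continuous_subtype_val : Continuous (Subtype.val : X → (Crd → Bool)))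

theorem Phi_cont : Continuous Phi := continuous_stoneCechExtend _

theorem Phi_unit (x : X) : Phi (stoneCechUnit x) = x.1 := stoneCechExtend_stoneCechUnit _ x

theorem dense_X : DenseRange (Subtype.val : X → (Crd → Bool)) := by
  intro y
  rw [mem_closure_iff]
  intro W hW hy
  obtain ⟨I, u, hu, hsub⟩ := isOpen_pi_iff.1 hW y hy
  obtain ⟨p, hp⟩ := P1 (I : Set Crd) I.countable_toSet y
  refine ⟨p.1, hsub ?_, ⟨p, rfl⟩⟩
  intro k hk
  rw [hp k hk]
  exact (hu k hk).2

theorem Phi_surj : Function.Surjective Phi := by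
  have hcl : IsClosed (Set.range Phi) := (isCompact_range Phi_cont).isClosed
  have hsub : Set.range (Subtype.val : X → (Crd → Bool)) ⊆ Set.range Phi := by
    rintro _ ⟨x, rfl⟩
    exact ⟨stoneCechUnit x, Phi_unit x⟩
  intro y
  have : closure (Set.range (Subtype.val : X → (Crd → Bool))) ⊆ Set.range Phi :=
    closure_minimal hsub hcl
  exact this (dense_X y)

theorem in_upsilon (p : StoneCech X) (g : X → Set.Icc (-1 : ℝ) 1) (hg : Continuous g)
    (hI : ∀ x, ((g x : ℝ)) ∈ Set.Ioo (-1 : ℝ) 1) :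
    ((stoneCechExtend hg p : Set.Icc (-1 : ℝ) 1) : ℝ) ∈ Set.Ioo (-1 : ℝ) 1 := by
  obtain ⟨G, hG, hGg, hGr⟩ := stepB (fun x => (g x : ℝ)) (continuous_subtype_val.comp hg)
  have heq : (fun p : StoneCech X => ((stoneCechExtend hg p : Set.Icc (-1 : ℝ) 1) : ℝ)) =
      fun p => G (Phi p) := by
    apply stoneCech_hom_ext (continuous_subtype_val.comp (continuous_stoneCechExtend hg))
      (hG.comp Phi_cont)
    funext x
    simp only [Function.comp]
    rw [stoneCechExtend_stoneCechUnit, Phi_unit, hGg]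
  have h := congrFun heq p
  rw [h]
  obtain ⟨x, hx⟩ := hGr (Phi p)
  rw [hx]
  exact hI x

end Pool.Agent.Helper94_CpHewitt
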